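import Mathlib
import Pool.Agent.H69.Nip2

set_option autoImplicit false

namespace Pool.Agent.Results.MP_66c0d0_lc.Yes

open Pool.Agent.H69.Nip

theorem result (α β : ℝ) (hα : Irrational α) : IsNIP α β := main hα

end Pool.Agent.Results.MP_66c0d0_lc.Yes
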